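import Pool.Agent.Q132.IC.Final

set_option autoImplicit false

namespace Pool.Agent.Results.MP_2596c2_co.GapFree

open Pool.Agent.Q132.IC

/-- Q1 in full: for all `m, n ≥ 1` the feasible sets (of interval cyclic edge-colorings) of
`K_{2n}`, `K_{m,n}` and `Q_n` are gap-free. -/
theorem result : ∀ m n : ℕ, 1 ≤ m → 1 ≤ n →
    GapFree (F (⊤ : SimpleGraph (Fin (2 * n)))) ∧
    GapFree (F (completeBipartiteGraph (Fin m) (Fin n))) ∧
    GapFree (F (hypercube n)) :=
  fun m n hm hn => ⟨gapfree_K n hn, gapfree_KMN m n hm hn, gapfree_cube n hn⟩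

end Pool.Agent.Results.MP_2596c2_co.GapFree
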